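import Pool.Agent.Helper53.PT.GoalsB

/-! # Project PT, packet KPOS: the positive part of the integral `K` on an interval -/

namespace Pool.Agent.Helper34.PT

open MeasureTheory Set Filter Topology
open Pool.Agent.Helper53.PT

theorem gKPOS : GKPOS := by
  intro hGRL hGKR θ z m xW xD yN hFA n t i j ξ0 ξ1 av C mq hSx hji hmax h0 h01 hz hav hrr hprod hmq
  have hθ0 : 0 < θ := by have := hFA.th0; linarith
  have hθ1 : θ < 1 / 2 := hFA.th1
  have hc0 : Continuous (f0 θ) := continuous_f0 hθ0 hθ1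
  have hc1 : Continuous (f1 θ) := continuous_f1 hθ0 hθ1
  have hKc : Continuous (KI θ t i j) := by
    unfold KI kr
    refine Continuous.mul ?_ (continuous_finsetProd _ fun l _ => hc0.comp (by fun_prop))
    refine Continuous.sub ?_ ?_
    · exact (hc1.comp (by fun_prop)).mul (hc0.comp (by fun_prop))
    · exact (hc0.comp (by fun_prop)).mul (hc1.comp (by fun_prop))
  have hint : IntervalIntegrable (KI θ t i j) volume ξ0 ξ1 := hKc.intervalIntegrable _ _
  refine ⟨hint, ?_⟩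
  have hkr := (hGKR hGRL θ z m xW xD yN hFA).1
  have htj : 0 ≤ t j := hSx.1 j
  have hij : i ≠ j := by rintro rfl; exact lt_irrefl _ hji
  have hpt : ∀ ξ, ξ0 < ξ → ξ ≤ ξ1 →
      (t i - t j) * av * Real.exp (-mq / 2 - C) * ((1 + mq / 2) * ξ ^ 2 - ξ ^ 4 / 2) ≤
        KI θ t i j ξ := by
    intro ξ hξ0 hξ1
    have hξ : 0 < ξ := lt_of_le_of_lt h0 hξ0
    have hξ2 : 0 < ξ ^ 2 := by positivity
    have hti : 0 < t i := lt_of_le_of_lt htj hji
    have hle : ξ ^ 2 ≤ ξ1 ^ 2 := pow_le_pow_left₀ hξ.le hξ1 2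
    have hx : t i * ξ ^ 2 < z := lt_of_le_of_lt (mul_le_mul_of_nonneg_left hle hti.le) hz
    have hyx : t j * ξ ^ 2 < t i * ξ ^ 2 := mul_lt_mul_of_pos_right hji hξ2
    have hk := (hkr (t i * ξ ^ 2) (t j * ξ ^ 2) (by positivity) hyx hx).1
    have hKI : KI θ t i j ξ = (rr θ (t i * ξ ^ 2) - rr θ (t j * ξ ^ 2)) *
        ∏ l, f0 θ (t l * ξ ^ 2) := by
      unfold KI
      rw [hk, ← Finset.mul_prod_erase Finset.univ (fun l => f0 θ (t l * ξ ^ 2)) (Finset.mem_univ i),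
        ← Finset.mul_prod_erase (Finset.univ.erase i) (fun l => f0 θ (t l * ξ ^ 2))
          (Finset.mem_erase.2 ⟨hij.symm, Finset.mem_univ j⟩)]
      ring
    rw [hKI]
    have h1 := hrr ξ hξ0 hξ1
    have h2 := hprod ξ hξ0 hξ1
    have h3 : 0 ≤ av * ((t i - t j) * ξ ^ 2) :=
      mul_nonneg hav (mul_nonneg (by linarith) hξ2.le)
    have h4 : av * ((t i - t j) * ξ ^ 2) * Real.exp (-ξ ^ 2 / 2 - C) ≤
        (rr θ (t i * ξ ^ 2) - rr θ (t j * ξ ^ 2)) * ∏ l, f0 θ (t l * ξ ^ 2) :=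
      mul_le_mul h1 h2 (Real.exp_pos _).le (h3.trans h1)
    refine le_trans ?_ h4
    have h5 : Real.exp (-mq / 2 - C) * (1 + (mq - ξ ^ 2) / 2) ≤ Real.exp (-ξ ^ 2 / 2 - C) := by
      have e1 : Real.exp (-ξ ^ 2 / 2 - C) = Real.exp (-mq / 2 - C) * Real.exp ((mq - ξ ^ 2) / 2) := by
        rw [← Real.exp_add]; congr 1; ring
      rw [e1]
      refine mul_le_mul_of_nonneg_left ?_ (Real.exp_pos _).le
      have := Real.add_one_le_exp ((mq - ξ ^ 2) / 2)
      linarith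
    calc (t i - t j) * av * Real.exp (-mq / 2 - C) * ((1 + mq / 2) * ξ ^ 2 - ξ ^ 4 / 2)
        = av * ((t i - t j) * ξ ^ 2) * (Real.exp (-mq / 2 - C) * (1 + (mq - ξ ^ 2) / 2)) := by ring
      _ ≤ _ := mul_le_mul_of_nonneg_left h5 h3
  have hpi : IntervalIntegrable (fun ξ : ℝ => (t i - t j) * av * Real.exp (-mq / 2 - C) *
      ((1 + mq / 2) * ξ ^ 2 - ξ ^ 4 / 2)) volume ξ0 ξ1 :=
    (by fun_prop : Continuous (fun ξ : ℝ => (t i - t j) * av * Real.exp (-mq / 2 - C) *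
      ((1 + mq / 2) * ξ ^ 2 - ξ ^ 4 / 2))).intervalIntegrable _ _
  have hmono := intervalIntegral.integral_mono_on_of_le_Ioo h01.le hpi hint
    (fun ξ hξ => hpt ξ hξ.1 hξ.2.le)
  refine le_trans ?_ hmono
  have hI : ∫ ξ in ξ0..ξ1, (t i - t j) * av * Real.exp (-mq / 2 - C) *
      ((1 + mq / 2) * ξ ^ 2 - ξ ^ 4 / 2) = (t i - t j) * av * Real.exp (-mq / 2 - C) *
      ((1 + mq / 2) * ((ξ1 ^ 3 - ξ0 ^ 3) / 3) - (ξ1 ^ 5 - ξ0 ^ 5) / 5 / 2) := by
    rw [intervalIntegral.integral_const_mul, intervalIntegral.integral_sub,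
      intervalIntegral.integral_const_mul, intervalIntegral.integral_div, integral_pow,
      integral_pow]
    · norm_num
    · exact (by fun_prop : Continuous fun ξ : ℝ => (1 + mq / 2) * ξ ^ 2).intervalIntegrable _ _
    · exact (by fun_prop : Continuous fun ξ : ℝ => ξ ^ 4 / 2).intervalIntegrable _ _
  rw [hI]
  have h6 : 0 ≤ (t i - t j) * av * Real.exp (-mq / 2 - C) :=
    mul_nonneg (mul_nonneg (by linarith) hav) (Real.exp_pos _).le
  have h7 : (t i - t j) * (av * ((ξ1 ^ 3 - ξ0 ^ 3) / 3) * Real.exp (-mq / 2 - C)) =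
      (t i - t j) * av * Real.exp (-mq / 2 - C) * ((ξ1 ^ 3 - ξ0 ^ 3) / 3) := by ring
  rw [h7]
  refine mul_le_mul_of_nonneg_left ?_ h6
  linarith

end Pool.Agent.Helper34.PT
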