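import Pool.Agent.Helper53.PT.GoalsD
import Pool.Agent.Helper8.PT.SIG

/-!
# PT-ETL: the tail of the energy test
-/

namespace Pool.Agent.Helper34.PT

open Pool.Agent.Helper53.PT

namespace ETL

theorem frc_eq {α : Type} (n : ℕ) (f : ℕ → α) : N.frc n f = f n := by
  cases n <;> rfl

theorem vR_add (a b : ℕ) : vR (a + b) = vR a + vR b := by
  simp only [vR]
  push_cast
  ring

theorem vR_mul (a b : ℕ) : vR (a * b) = a * vR b := by
  simp only [vR]
  push_cast
  ring

theorem vR_nonneg (a : ℕ) : 0 ≤ vR a := by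
  simp only [vR]
  positivity

theorem vR_div (E X : ℕ) (hX : 0 < X) : vR E / X ≤ vR (Nat.succ (E / X)) := by
  have hX' : (0 : ℝ) < X := by exact_mod_cast hX
  have h1 : E < (E / X + 1) * X := by
    have h2 := Nat.div_add_mod E X
    have h3 := Nat.mod_lt E hX
    nlinarith
  have h2 : (E : ℝ) ≤ ((E / X : ℕ) + 1 : ℝ) * X := by exact_mod_cast h1.le
  rw [div_le_iff₀ hX']
  simp only [vR]
  push_cast
  rw [div_mul_eq_mul_div]
  exact div_le_div_of_nonneg_right (by exact_mod_cast h2) (by positivity)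

theorem aR_mul (a X : ℕ) : aR (a * X) = aR a * X := by
  simp only [aR]
  push_cast
  ring

/-- the value for one node -/
noncomputable def q (D : N.Tab) (a2 i : ℕ) : ℝ :=
  vR (N.expUp ((i * i) * N.sig D (a2 * (i * i))))

noncomputable def r (D : N.Tab) (a2 : ℕ) : ℝ :=
  vR (N.expUp (256 * N.sigS D (256 * a2)))

theorem rec_le (D : N.Tab) (a2 m : ℕ) :
    ∑ i ∈ Finset.range m, q D a2 (9 + i) / ((9 + i : ℕ) : ℝ) ^ 2 + 0.0646 * r D a2 ≤
      vR (Nat.rec (Nat.succ (646 * N.expUp (256 * N.sigS D (256 * a2)) / 10000))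
    (fun i ih => ih + Nat.succ (N.expUp (((9 + i) * (9 + i)) * N.sig D (a2 * ((9 + i) * (9 + i)))) /
      ((9 + i) * (9 + i)))) m) := by
  induction m with
  | zero =>
    simp only [Finset.range_zero, Finset.sum_empty, zero_add]
    have h := vR_div (646 * N.expUp (256 * N.sigS D (256 * a2))) 10000 (by norm_num)
    rw [vR_mul] at h
    refine le_trans (le_of_eq ?_) h
    simp only [r]
    push_cast
    ring
  | succ m ih =>
    rw [Finset.sum_range_succ]
    have h := vR_div (N.expUp (((9 + m) * (9 + m)) * N.sig D (a2 * ((9 + m) * (9 + m)))))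
      ((9 + m) * (9 + m)) (by positivity)
    have e : q D a2 (9 + m) / ((9 + m : ℕ) : ℝ) ^ 2 ≤
        vR (Nat.succ (N.expUp (((9 + m) * (9 + m)) * N.sig D (a2 * ((9 + m) * (9 + m)))) /
          ((9 + m) * (9 + m)))) := by
      refine le_trans (le_of_eq ?_) h
      simp only [q]
      push_cast
      ring
    have e2 := add_le_add ih e
    rw [← vR_add] at e2
    refine le_trans (le_of_eq ?_) e2
    ring

end ETL

open ETL

theorem gETL : GETL := by
  intro hE D θ z hD n t a2 hS ht
  have hq : ∀ i : ℕ, |PP θ t (i : ℝ)| ≤ q D a2 i := by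
    intro i
    have h := (Pool.Agent.Helper8.PT.gSIG θ).1 n t (vR (N.sig D (a2 * (i * i)))) (aR (a2 * (i * i))) ((i : ℝ) ^ 2) hS
      (by positivity) (fun y hy0 hy1 => hD.sig _ y hy0 hy1) (fun l => by
        rw [aR_mul]
        push_cast
        rw [← pow_two]
        exact mul_le_mul_of_nonneg_right (ht l) (by positivity))
    refine le_trans h ?_
    refine le_trans (le_of_eq ?_) (hE ((i * i) * N.sig D (a2 * (i * i)))).1
    rw [vR_mul]
    push_cast
    congr 1
    ring
  have hr : ∀ i : ℕ, 16 ≤ i → |PP θ t (i : ℝ)| ≤ r D a2 := by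
    intro i hi
    have hi' : (16 : ℝ) ≤ i := by exact_mod_cast hi
    have h := (Pool.Agent.Helper8.PT.gSIG θ).2.1 n t (vR (N.sigS D (256 * a2))) (aR (256 * a2)) 256 ((i : ℝ) ^ 2) hS
      (vR_nonneg _) (by norm_num) (by nlinarith) (hD.sgS _).1 (hD.sgS _).2 (fun l => by
        rw [mul_comm 256 a2, aR_mul]
        push_cast
        exact mul_le_mul_of_nonneg_right (ht l) (by positivity))
    refine le_trans h ?_
    refine le_trans (le_of_eq ?_) (hE (256 * N.sigS D (256 * a2))).1
    rw [vR_mul]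
    push_cast
    congr 1
    ring
  refine ⟨fun i => if i = 16 then r D a2 else q D a2 i, ?_, ?_, ?_⟩
  · intro i _ h2
    simp only
    rw [if_neg (by omega)]
    exact hq i
  · intro i hi
    simp only [if_true]
    exact hr i hi
  · simp only [if_true]
    have h := rec_le D a2 7
    have e0 : N.eTail D a2 = Nat.rec (Nat.succ (646 * N.expUp (256 * N.sigS D (256 * a2)) / 10000))
        (fun i ih => ih + Nat.succ (N.expUp (((9 + i) * (9 + i)) *
          N.sig D (a2 * ((9 + i) * (9 + i)))) / ((9 + i) * (9 + i)))) 7 := by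
      simp only [N.eTail, frc_eq]
      rfl
    rw [e0]
    refine le_trans (le_of_eq ?_) h
    congr 1

end Pool.Agent.Helper34.PT
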